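import Pool.Agent.T9h51.AF.Padic
import Pool.Agent.T9h51.AF.Cx
import Pool.Agent.T9h51.AF.Lin
import Pool.Agent.Y921.SR.Fin

/-!
# Complex and `p`-adic one-parameter families of matrices of logarithms: a bound for the number of exceptions

We consider the `n × n` matrices `W + ∑ λ_k B_k`, where `W` has entries in a space `V` for which the question has a positive
answer, the `B_k` have rational entries (or entries in a field `K`), and the `λ_k` are logarithms of the values `g_k(t)` at a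
parameter `t` of polynomials `g_1, ..., g_r`, multiplicatively independent modulo the constants. There is a bound for the
number of the parameters `t` for which the matrix is singular which does not depend on the matrices, on the space or on the
field `K`, unless there are nonzero vectors `w`, `v` over `K` such that `w (W + ∑ x_k B_k) v = 0` for all `x`. Here `t` is a
complex number and all complex logarithms `λ_k` of absolute value at most `H` are allowed (Q1), or `t` lies in a compact set of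
`ℂ_p` and is not close to a zero of a `g_k`, and `λ_k` is the Iwasawa logarithm of `g_k(t)` (Q2).
-/

set_option autoImplicit false

open Module Polynomial

namespace Pool.Agent.Results.MP_1f047c_nt.AnalyticFamilies

/-- Every singular square matrix, of any size `n ≥ 1`, with entries in the `K`-space `V` has a zero coefficient
`∑ w_i M_ij v_j = 0` with nonzero vectors `w`, `v` over `K` (for `K = ℚ`: the conclusion of Q1 and Q2). -/
def ZeroCoefficients {K A : Type} [Field K] [Field A] [Algebra K A] (V : Submodule K A) : Prop :=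
  ∀ n : ℕ, 1 ≤ n → ∀ M : Matrix (Fin n) (Fin n) A, (∀ i j, M i j ∈ V) → M.det = 0 →
    ∃ w v : Fin n → K, w ≠ 0 ∧ v ≠ 0 ∧ ∑ i, ∑ j, (w i * v j) • M i j = 0

/-- The polynomials `g_k` are multiplicatively independent modulo the constants. -/
def MultIndep {A : Type} [Field A] {r : ℕ} (g : Fin r → A[X]) : Prop :=
  ∀ (a b : Fin r → ℕ) (γ : A), ∏ k, g k ^ a k = C γ * ∏ k, g k ^ b k → a = b

/-- The matrix `W + ∑ x_k B_k`. -/
noncomputable def mat {K A : Type} [Field K] [Field A] [Algebra K A] {r n : ℕ} (W : Matrix (Fin n) (Fin n) A)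
    (B : Fin r → Matrix (Fin n) (Fin n) K) (x : Fin r → A) : Matrix (Fin n) (Fin n) A :=
  W + ∑ k, x k • (B k).map (algebraMap K A)

/-- There are nonzero vectors `w`, `v` over `K` such that `w (W + ∑ x_k B_k) v = 0` for ALL `x`. -/
def CommonZero {K A : Type} [Field K] [Field A] [Algebra K A] {r n : ℕ} (W : Matrix (Fin n) (Fin n) A)
    (B : Fin r → Matrix (Fin n) (Fin n) K) : Prop :=
  ∃ w v : Fin n → K, w ≠ 0 ∧ v ≠ 0 ∧ ∀ x : Fin r → A, ∑ i, ∑ j, (w i * v j) • mat W B x i j = 0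

/-- The complex numbers `t` for which there are logarithms `λ_k` of the numbers `g_k(t)`, `|λ_k| ≤ H`, such that the matrix
`W + ∑ λ_k B_k` is singular. -/
def singularC {K : Type} [Field K] [Algebra K ℂ] {r n : ℕ} (g : Fin r → ℂ[X]) (H : ℝ) (W : Matrix (Fin n) (Fin n) ℂ)
    (B : Fin r → Matrix (Fin n) (Fin n) K) : Set ℂ :=
  {t | ∃ l : Fin r → ℂ, (∀ k, Complex.exp (l k) = (g k).eval t ∧ ‖l k‖ ≤ H) ∧ (mat W B l).det = 0}

/-- `L` is Iwasawa's `p`-adic logarithm on `ℂ_p` (its value at `0` is irrelevant). -/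
def IsIwasawaLog (p : ℕ) [Fact p.Prime] (L : ℂ_[p] → ℂ_[p]) : Prop :=
  (∀ x y : ℂ_[p], x ≠ 0 → y ≠ 0 → L (x * y) = L x + L y) ∧
  L ((p : ℕ) : ℂ_[p]) = 0 ∧
  ∀ z : ℂ_[p], ‖z‖ < 1 →
    HasSum (fun n : ℕ => (-1 : ℂ_[p]) ^ n * z ^ (n + 1) / ((n : ℂ_[p]) + 1)) (L (1 + z))

/-- The `t` in `T` with `|g_k(t)|_p ≥ δ` for all `k` such that the matrix `W + ∑ log_p (g_k(t)) B_k` is singular. -/
def singularP {p : ℕ} [Fact p.Prime] {K : Type} [Field K] [Algebra K ℂ_[p]] {r n : ℕ} (L : ℂ_[p] → ℂ_[p])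
    (g : Fin r → ℂ_[p][X]) (T : Set ℂ_[p]) (δ : ℝ) (W : Matrix (Fin n) (Fin n) ℂ_[p])
    (B : Fin r → Matrix (Fin n) (Fin n) K) : Set ℂ_[p] :=
  {t | (t ∈ T ∧ ∀ k, δ ≤ ‖(g k).eval t‖) ∧ (mat W B fun k => L ((g k).eval t)).det = 0}

/-- The set has at most `C` elements. -/
def AtMost {A : Type} (S : Set A) (C : ℕ) : Prop := S.Finite ∧ S.ncard ≤ C

theorem atMost_of {A : Type} (S : Set A) (C : ℕ) (h : ∀ Z : Finset A, (∀ t ∈ Z, t ∈ S) → Z.card ≤ C) : AtMost S C := by
  have hfin : S.Finite := by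
    by_contra hinf
    obtain ⟨T, hT, hTc⟩ := Set.Infinite.exists_subset_card_eq hinf (C + 1)
    have h1 := h T fun t ht => hT ht
    omega
  refine ⟨hfin, ?_⟩
  rw [Set.ncard_eq_toFinset_card _ hfin]
  exact h _ fun t ht => by
    rw [Set.Finite.mem_toFinset] at ht
    exact ht

theorem commonZero_of {K A : Type} [Field K] [Field A] [Algebra K A] {r n : ℕ} (W : Matrix (Fin n) (Fin n) A)
    (B : Fin r → Matrix (Fin n) (Fin n) K)
    (h : ∃ w v : Fin n → K, w ≠ 0 ∧ v ≠ 0 ∧ ∑ i, ∑ j, (w i * v j) • W i j = 0 ∧ ∀ k, ∑ i, ∑ j, w i * B k i j * v j = 0) :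
    CommonZero W B := by
  obtain ⟨w, v, hw, hv, h1, h2⟩ := h
  refine ⟨w, v, hw, hv, fun x => ?_⟩
  have h3 : ∀ i j, (w i * v j) • mat W B x i j =
      (w i * v j) • W i j + ∑ k, x k * algebraMap K A (w i * B k i j * v j) := by
    intro i j
    unfold mat
    simp only [Matrix.add_apply, Matrix.sum_apply, Matrix.smul_apply, Matrix.map_apply, smul_add, smul_eq_mul]
    congr 1
    rw [Finset.smul_sum]
    refine Finset.sum_congr rfl fun k _ => ?_
    rw [Algebra.smul_def, map_mul, map_mul, map_mul]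
    ring
  simp only [h3, Finset.sum_add_distrib, h1, zero_add]
  rw [← Finset.sum_congr rfl fun i _ => Finset.sum_comm]
  rw [Finset.sum_comm]
  refine Finset.sum_eq_zero fun k _ => ?_
  simp only [← Finset.mul_sum]
  have h4 : ∑ i, ∑ j, algebraMap K A (w i * B k i j * v j) = 0 := by
    have h5 := congrArg (algebraMap K A) (h2 k)
    simp only [map_sum, map_zero] at h5
    exact h5
  rw [h4, mul_zero]

/-- **Main result.** -/
theorem result (n r : ℕ) :
    (∀ g : Fin r → ℂ[X], MultIndep g → ∀ H : ℝ, ∃ C : ℕ,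
      ∀ (K : Type) [Field K] [Algebra K ℂ] (V : Submodule K ℂ), Module.Finite K V → (finrank K V ≤ 1 ∨ ZeroCoefficients V) →
      ∀ W : Matrix (Fin n) (Fin n) ℂ, (∀ i j, W i j ∈ V) → ∀ B : Fin r → Matrix (Fin n) (Fin n) K,
      CommonZero W B ∨ AtMost (singularC g H W B) C) ∧
    (∀ (p : ℕ) [Fact p.Prime] (L : ℂ_[p] → ℂ_[p]), IsIwasawaLog p L → ∀ g : Fin r → ℂ_[p][X], MultIndep g →
      ∀ (T : Set ℂ_[p]) (δ : ℝ), IsCompact T → 0 < δ → ∃ C : ℕ,
      ∀ (K : Type) [Field K] [Algebra K ℂ_[p]] (V : Submodule K ℂ_[p]), Module.Finite K V →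
      (finrank K V ≤ 1 ∨ ZeroCoefficients V) →
      ∀ W : Matrix (Fin n) (Fin n) ℂ_[p], (∀ i j, W i j ∈ V) → ∀ B : Fin r → Matrix (Fin n) (Fin n) K,
      CommonZero W B ∨ AtMost (singularP L g T δ W B) C) ∧
    (∀ (p : ℕ) [Fact p.Prime] (k : Type) [Field k] [NumberField k] (τ : k →+* ℂ_[p]),
      ∃ T : Set ℂ_[p], IsCompact T ∧ ∀ a : NumberField.RingOfIntegers k, τ a ∈ T) ∧
    ∀ (A : Type) [Field A] (θ : Fin r → A), Function.Injective θ → MultIndep fun k => X + Polynomial.C (θ k) := by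
  refine ⟨fun g hg H => ?_, fun p _ L hL g hg T δ hT hδ => ?_,
    fun p _ k _ _ τ => Pool.Agent.T9h51.AF.integers_compact p k τ, fun A _ θ hθ => Pool.Agent.T9h51.AF.multIndep_linear θ hθ⟩
  · obtain ⟨N, hN⟩ := Pool.Agent.T9h51.AF.complex g hg H n
    refine ⟨N, fun K _ _ V hV hV0 W hW B => ?_⟩
    rcases hN K V (hV0.elim (fun h1 => Pool.Agent.Y921.SR.zeroProp_small V h1) fun h1 => h1) W hW B with h | h
    · exact Or.inl (commonZero_of W B h)
    · exact Or.inr (atMost_of _ _ h)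
  · obtain ⟨N, hN⟩ := Pool.Agent.T9h51.AF.padic p L ⟨hL.1, hL.2.1, hL.2.2⟩ g hg T hT δ hδ n
    refine ⟨N, fun K _ _ V hV hV0 W hW B => ?_⟩
    rcases hN K V (hV0.elim (fun h1 => Pool.Agent.Y921.SR.zeroProp_small V h1) fun h1 => h1) W hW B with h | h
    · exact Or.inl (commonZero_of W B h)
    · exact Or.inr (atMost_of _ _ h)

end Pool.Agent.Results.MP_1f047c_nt.AnalyticFamilies
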