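import Pool.Agent.T9h51.KV.Core

/-!
# Singular matrices of logarithms whose kernel vectors have coordinates in a small space

Let `A` be a space of complex (`p`-adic) numbers of finite dimension over the field of algebraic numbers. There is a finite
dimensional rational space `Z` of logarithms, depending only on `A`, such that for EVERY square matrix `M` of logarithms of
algebraic numbers, of any size, with a nonzero left kernel vector with coordinates in `A` there is a nonzero rational vector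
`w` such that all the coordinates of `w M` are in `Z`. So Q1 (Q2) holds for all these matrices of size larger than the
dimension of `Z`. If the coordinates of the kernel vector span a space of dimension `d` over a number field `K`, the bound for
the size is `[K : ℚ] d (d - 1)`.
-/

set_option autoImplicit false

namespace Pool.Agent.Results.MP_1f047c_nt.KernelVectors

open Module

/-- The conclusion of Q1 and Q2. -/
def HasRationalZero {Ω : Type} [Field Ω] [CharZero Ω] {n : ℕ} (M : Matrix (Fin n) (Fin n) Ω) : Prop :=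
  ∃ w v : Fin n → ℚ, w ≠ 0 ∧ v ≠ 0 ∧ ∑ i, ∑ j, (w i : Ω) * M i j * (v j : Ω) = 0

/-- `Z` is an exceptional space for the space `A` and the set `𝓛` of logarithms. -/
structure IsExceptional {Ω : Type} [Field Ω] [CharZero Ω] (𝓛 : Set Ω) (A : Submodule (algebraicClosure ℚ Ω) Ω)
    (Z : Submodule ℚ Ω) : Prop where
  /-- the elements of `Z` are logarithms -/
  logs : ∀ z ∈ Z, z ∈ 𝓛
  /-- `Z` is of finite dimension -/
  finite : FiniteDimensional ℚ Z
  /-- left kernel vectors -/
  left : ∀ (n : ℕ) (M : Matrix (Fin n) (Fin n) Ω), (∀ i j, M i j ∈ 𝓛) → ∀ x : Fin n → Ω, x ≠ 0 → (∀ i, x i ∈ A) →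
    M.vecMul x = 0 → ∃ w : Fin n → ℚ, w ≠ 0 ∧ ∀ j, ∑ i, (w i : Ω) * M i j ∈ Z
  /-- right kernel vectors -/
  right : ∀ (n : ℕ) (M : Matrix (Fin n) (Fin n) Ω), (∀ i j, M i j ∈ 𝓛) → ∀ x : Fin n → Ω, x ≠ 0 → (∀ i, x i ∈ A) →
    M.mulVec x = 0 → ∃ v : Fin n → ℚ, v ≠ 0 ∧ ∀ i, ∑ j, M i j * (v j : Ω) ∈ Z
  /-- matrices of large size -/
  large : ∀ (n : ℕ) (M : Matrix (Fin n) (Fin n) Ω), (∀ i j, M i j ∈ 𝓛) → ∀ x : Fin n → Ω, x ≠ 0 → (∀ i, x i ∈ A) →
    (M.vecMul x = 0 ∨ M.mulVec x = 0) → finrank ℚ Z < n → HasRationalZero M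

/-- The explicit bound: if the coordinates of a nonzero kernel vector of the matrix `M` of logarithms span a space of
dimension `d` over the number field `K` and `n > [K : ℚ] d (d - 1)`, then `M` has a rational zero coefficient. -/
def ExplicitBound {Ω : Type} [Field Ω] [CharZero Ω] (𝓛 : Set Ω) : Prop :=
  ∀ K : IntermediateField ℚ Ω, FiniteDimensional ℚ K → ∀ (n : ℕ) (M : Matrix (Fin n) (Fin n) Ω), (∀ i j, M i j ∈ 𝓛) →
    ∀ x : Fin n → Ω, x ≠ 0 → (M.vecMul x = 0 ∨ M.mulVec x = 0) →
    finrank ℚ K * (finrank K (Submodule.span K (Set.range x)) * (finrank K (Submodule.span K (Set.range x)) - 1)) < n →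
    HasRationalZero M

/-- `L` is the Iwasawa logarithm on the algebraic closure of `ℚ_p`. -/
structure IsIwasawaLog (p : ℕ) [Fact p.Prime] (L : PadicAlgCl p → PadicAlgCl p) : Prop where
  /-- `L` is a homomorphism -/
  mul : ∀ x y : PadicAlgCl p, x ≠ 0 → y ≠ 0 → L (x * y) = L x + L y
  /-- `L p = 0` -/
  prime : L p = 0
  /-- `L (1 + z)` is given by the usual series if `|z| < 1` -/
  ser : ∀ z : PadicAlgCl p, ‖z‖ < 1 →
    HasSum (fun r : ℕ => (-1 : PadicAlgCl p) ^ r * z ^ (r + 1) / ((r : PadicAlgCl p) + 1)) (L (1 + z))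

section general

variable {E : Type} [Field E] [CharZero E] [IsAlgClosed E] {Lg : Submodule ℚ E}

theorem hasZero_of_transpose {n : ℕ} {M : Matrix (Fin n) (Fin n) E}
    (h : ∃ (w v : Fin n → ℚ), w ≠ 0 ∧ v ≠ 0 ∧ ∑ i, ∑ j, (w i : E) * M j i * (v j : E) = 0) : HasRationalZero M := by
  obtain ⟨w, v, hw, hv, h⟩ := h
  refine ⟨v, w, hv, hw, ?_⟩
  rw [← h, Finset.sum_comm]
  exact Finset.sum_congr rfl fun i _ => Finset.sum_congr rfl fun j _ => by ring

theorem exceptional (hS : Pool.Agent.T9h51.KV.Setup Lg) (A : Submodule (algebraicClosure ℚ E) E)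
    (hA : FiniteDimensional (algebraicClosure ℚ E) A) : ∃ Z : Submodule ℚ E, IsExceptional (Lg : Set E) A Z := by
  obtain ⟨Z, hZ, hfin, h⟩ := Pool.Agent.T9h51.KV.exists_space hS A
  have hl : ∀ (n : ℕ) (M : Matrix (Fin n) (Fin n) E), (∀ i j, M i j ∈ Lg) → ∀ x : Fin n → E, x ≠ 0 → (∀ i, x i ∈ A) →
      M.vecMul x = 0 → ∃ w : Fin n → ℚ, w ≠ 0 ∧ ∀ j, ∑ i, (w i : E) * M i j ∈ Z := by
    intro n M hM x hx hxA hker
    exact h (Fin n) (Fin n) M hM x hx hxA fun j => congrFun hker j
  have hr : ∀ (n : ℕ) (M : Matrix (Fin n) (Fin n) E), (∀ i j, M i j ∈ Lg) → ∀ x : Fin n → E, x ≠ 0 → (∀ i, x i ∈ A) →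
      M.mulVec x = 0 → ∃ v : Fin n → ℚ, v ≠ 0 ∧ ∀ i, ∑ j, (v j : E) * M i j ∈ Z := by
    intro n M hM x hx hxA hker
    refine h (Fin n) (Fin n) (fun i j => M j i) (fun i j => hM j i) x hx hxA fun j => ?_
    have h1 := congrFun hker j
    simp only [Matrix.mulVec, dotProduct, Pi.zero_apply] at h1
    rw [← h1]
    exact Finset.sum_congr rfl fun i _ => mul_comm _ _
  refine ⟨Z, fun z hz => hZ hz, hfin, hl, ?_, ?_⟩
  · intro n M hM x hx hxA hker
    obtain ⟨v, hv, h1⟩ := hr n M hM x hx hxA hker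
    refine ⟨v, hv, fun i => ?_⟩
    have h2 : ∑ j, M i j * (v j : E) = ∑ j, (v j : E) * M i j := Finset.sum_congr rfl fun j _ => mul_comm _ _
    rw [h2]
    exact h1 i
  · intro n M hM x hx hxA hker hn
    rcases hker with hker | hker
    · obtain ⟨w, hw, h1⟩ := hl n M hM x hx hxA hker
      obtain ⟨v, hv, h2⟩ := Pool.Agent.T9h51.KV.exists_pair (κ := Fin n) (by rwa [Fintype.card_fin]) h1
      exact ⟨w, v, hw, hv, h2⟩
    · obtain ⟨w, hw, h1⟩ := hr n M hM x hx hxA hker
      obtain ⟨v, hv, h2⟩ := Pool.Agent.T9h51.KV.exists_pair (κ := Fin n) (M := fun i j => M j i)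
        (by rwa [Fintype.card_fin]) h1
      exact hasZero_of_transpose ⟨w, v, hw, hv, h2⟩

theorem explicit (hS : Pool.Agent.T9h51.KV.Setup Lg) : ExplicitBound (Lg : Set E) := by
  intro K hK n M hM x hx hker hn
  have hfd : FiniteDimensional K (Submodule.span K (Set.range x)) := FiniteDimensional.span_of_finite K (Set.finite_range x)
  have hxX : ∀ i, x i ∈ Submodule.span K (Set.range x) := fun i => Submodule.subset_span ⟨i, rfl⟩
  rcases hker with hker | hker
  · exact Pool.Agent.T9h51.KV.explicit hS K _ (κ := Fin n) (by rwa [Fintype.card_fin]) M hM x hx hxX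
      fun j => congrFun hker j
  · refine hasZero_of_transpose (Pool.Agent.T9h51.KV.explicit hS K _ (κ := Fin n) (by rwa [Fintype.card_fin])
      (fun i j => M j i) (fun i j => hM j i) x hx hxX fun j => ?_)
    have h1 := congrFun hker j
    simp only [Matrix.mulVec, dotProduct, Pi.zero_apply] at h1
    rw [← h1]
    exact Finset.sum_congr rfl fun i _ => mul_comm _ _

end general

/-- **(1)** For every space `A` of complex numbers of finite dimension over the algebraic numbers there is a finite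
dimensional rational space `Z` of logarithms of algebraic numbers such that for every `n` and every `n × n` matrix `M` of
logarithms of algebraic numbers with a nonzero left (right) kernel vector `x` with coordinates in `A` there is a nonzero
rational vector `w` with `w M ∈ Z^n` (`M w ∈ Z^n`). In particular `M` has a rational zero coefficient if `n > dim Z`.
**(2)** If the coordinates of a nonzero (left or right) kernel vector of an `n × n` matrix `M` of logarithms span a space of
dimension `d` over a number field `K` and `n > [K : ℚ] d (d - 1)`, then `M` has a rational zero coefficient. **(3)** The same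
for the `p`-adic logarithms. -/
theorem result :
    (∀ A : Submodule (algebraicClosure ℚ ℂ) ℂ, FiniteDimensional (algebraicClosure ℚ ℂ) A →
      ∃ Z : Submodule ℚ ℂ, IsExceptional {z : ℂ | IsAlgebraic ℚ (Complex.exp z)} A Z) ∧
    ExplicitBound {z : ℂ | IsAlgebraic ℚ (Complex.exp z)} ∧
    ∀ (p : ℕ) [Fact p.Prime] (L : PadicAlgCl p → PadicAlgCl p), IsIwasawaLog p L →
      (∀ A : Submodule (algebraicClosure ℚ (PadicAlgCl p)) (PadicAlgCl p),
        FiniteDimensional (algebraicClosure ℚ (PadicAlgCl p)) A →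
        ∃ Z : Submodule ℚ (PadicAlgCl p),
          IsExceptional {z | ∃ α : PadicAlgCl p, α ≠ 0 ∧ IsAlgebraic ℚ α ∧ z = L α} A Z) ∧
      ExplicitBound {z | ∃ α : PadicAlgCl p, α ≠ 0 ∧ IsAlgebraic ℚ α ∧ z = L α} := by
  refine ⟨fun A hA => exceptional Pool.Agent.T9h51.KV.setup_complex A hA,
    explicit Pool.Agent.T9h51.KV.setup_complex, fun p _ L hL => ?_⟩
  have hL' : Pool.Agent.W245.PB.IsIwasawaLog p L := ⟨hL.1, hL.2, hL.3⟩
  exact ⟨fun A hA => exceptional (Pool.Agent.T9h51.KV.setup_padic hL') A hA,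
    explicit (Pool.Agent.T9h51.KV.setup_padic hL')⟩

end Pool.Agent.Results.MP_1f047c_nt.KernelVectors
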