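import Pool.Agent.Y921.SR.Fin
import Pool.Agent.Y921.PX.Fin

/-!
# Singular matrices of logarithms of numbers near `1`: no exceptions, coefficients of any height

Complex logarithms (Q1) and `p`-adic logarithms (Q2). The proofs use the theorems on the absence of polynomial relations
of bounded degree between values of G-functions (`Pool.Agent.Y916.t_window`, `Pool.Agent.Y916.Om.aw`, `Pool.Agent.Y921.PW`)
and the theorem on identically singular families of matrices (`Pool.Agent.Y921.SR.extend`), all from the starting files.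
-/

set_option autoImplicit false

open Module

namespace Pool.Agent.Results.MP_1f047c_nt.NearOne

/-- Every singular square matrix, of any size `n ≥ 1`, with entries in the `K`-space `V` has a zero coefficient
`∑ w_i M_ij v_j = 0` with nonzero vectors `w`, `v` over `K` (for `K = ℚ`: the conclusion of Q1 and Q2). -/
def ZeroCoefficients {K A : Type} [Field K] [Field A] [Algebra K A] (V : Submodule K A) : Prop :=
  ∀ n : ℕ, 1 ≤ n → ∀ M : Matrix (Fin n) (Fin n) A, (∀ i j, M i j ∈ V) → M.det = 0 →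
    ∃ w v : Fin n → K, w ≠ 0 ∧ v ≠ 0 ∧ ∑ i, ∑ j, (w i * v j) • M i j = 0

/-- The `l i` are linearly independent over `K` modulo `V`, and all singular matrices with entries in
`V + span l` have zero coefficients over `K`. -/
def Extends {K A : Type} [Field K] [Field A] [Algebra K A] (V : Submodule K A) {r : ℕ} (l : Fin r → A) : Prop :=
  finrank K (V ⊔ Submodule.span K (Set.range l) : Submodule K A) = finrank K V + r ∧
    ZeroCoefficients (V ⊔ Submodule.span K (Set.range l))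

/-- `z` is a root of a nonzero integer polynomial of degree at most `d` with coefficients at most `H` in absolute
value. -/
def Bounded (d H : ℕ) (z : ℂ) : Prop :=
  ∃ P : Polynomial ℤ, P ≠ 0 ∧ P.natDegree ≤ d ∧ (∀ j, |P.coeff j| ≤ (H : ℤ)) ∧ Polynomial.aeval z P = 0

/-- `L` is Iwasawa's `p`-adic logarithm on `ℂ_p` (its value at `0` is irrelevant). -/
def IsIwasawaLog (p : ℕ) [Fact p.Prime] (L : ℂ_[p] → ℂ_[p]) : Prop :=
  (∀ x y : ℂ_[p], x ≠ 0 → y ≠ 0 → L (x * y) = L x + L y) ∧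
  L ((p : ℕ) : ℂ_[p]) = 0 ∧
  ∀ z : ℂ_[p], ‖z‖ < 1 →
    HasSum (fun n : ℕ => (-1 : ℂ_[p]) ^ n * z ^ (n + 1) / ((n : ℂ_[p]) + 1)) (L (1 + z))

open Pool.Agent.Y921.SR Pool.Agent.Y921.FE in
/-- the complex case -/
theorem complex_case (r d m : ℕ) : ∃ E : ℕ, ∀ H t : ℕ, (H + 2) ^ E ≤ t →
    ∀ K : IntermediateField ℚ ℂ, FiniteDimensional ℚ K → finrank ℚ K ≤ d →
    ∀ V : Submodule K ℂ, Module.Finite K V → finrank K V ≤ m → ZeroProp V →
    ∃ S : Finset ℂ, S.card ≤ m ∧ ∀ β : Fin r → ℂ, Function.Injective β → (∀ i, β i ∉ S ∧ β i ≠ 0 ∧ Bounded d H (β i)) →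
      finrank K (V ⊔ Submodule.span K (Set.range fun i => Complex.log (1 + β i / t)) : Submodule K ℂ) = finrank K V + r ∧
          ZeroProp (V ⊔ Submodule.span K (Set.range fun i => Complex.log (1 + β i / t))) := by
  classical
  obtain ⟨E, hE⟩ := Pool.Agent.Y916.t_window r d (m + r + 1) m
  refine ⟨E, fun H t ht K hK hKd V hV hVm hV0 => ?_⟩
  obtain ⟨w, hwV⟩ := exists_span V m hVm
  obtain ⟨S, hS, h⟩ := hE H t ht K hK hKd w
  refine ⟨S, hS, fun β hinj hβ => ?_⟩
  have hg := extend V hV0 (fun i => Complex.log (1 + β i / t)) fun N hN w0 c hw0 h0 X => by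
    rw [Fintype.card_fin] at hN
    have h2 : ∀ i j, ∃ a : Fin m → K, ∑ q, a q • w q = w0 i j := fun i j =>
      (Submodule.mem_span_range_iff_exists_fun K).1 (hwV (hw0 i j))
    choose a ha using h2
    have e0 : w0 = fun i j => ∑ q, a i j q • w q := by
      funext i j
      exact (ha i j).symm
    rw [e0] at h0 ⊢
    apply DWn_aeval2
    refine h β hinj (fun i => ⟨(hβ i).1, (hβ i).2.1, (hβ i).2.2⟩) (fun i => Complex.log (1 + β i / t)) (fun i => ?_)
      (DWn a c) ((DWn_deg a c).trans (by omega)) ?_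
    · rw [sub_self]
      exact Submodule.zero_mem _
    · rw [DWn_aeval]
      exact h0
  rwa [Fintype.card_fin] at hg

open Pool.Agent.Y921.SR Pool.Agent.Y921.FE Pool.Agent.Y921.PX Pool.Agent.Y916.Om Pool.Agent.Y921.PW in
/-- the absence of relations, `p`-adic case -/
theorem padic_norel (r d δ τ : ℕ) : ∃ E : ℕ, ∀ (p : ℕ) [Fact p.Prime] (A : Type) [NormedField A]
    [NormedAlgebra ℚ_[p] A] [CharZero A] (L : A → A), Iw p L → ∀ H e v : ℕ, (H + 2) ^ E ≤ p ^ e → ¬ p ∣ v →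
    v ≤ p ^ e → ∀ K : IntermediateField ℚ A, FiniteDimensional ℚ K → finrank ℚ K ≤ d → ∀ w : Fin τ → A,
    ∃ S : Finset ℕ, S.card ≤ τ ∧ ∀ g : Fin r → ℕ, Function.Injective g → (∀ i, 1 ≤ g i ∧ g i ≤ H ∧ g i ∉ S) →
      ∀ P : MvPolynomial (Fin τ ⊕ Fin r) K, P.totalDegree ≤ δ →
      MvPolynomial.aeval (Sum.elim w fun i => L ((v + g i * p ^ e : ℕ) : A) - L (v : A)) P = 0 →
      MvPolynomial.aeval (Sum.elim (fun j => MvPolynomial.C (w j)) MvPolynomial.X) P
        = (0 : MvPolynomial (Fin r) A) := by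
  obtain ⟨E, hE⟩ := aw Ev (σ := Unit) r d δ τ
  refine ⟨E, fun p _ A _ _ _ L hL H e v hHe hv hve K hK hKd w => ?_⟩
  obtain ⟨S, hS, h⟩ := hE A Unit (fun _ => p ^ e) (fun _ g (_ : Unit) => L ((v + g * p ^ e : ℕ) : A) - L (v : A))
    (fun N Δ H' _ h1 g hg hgb => inpP hL N Δ H' e v h1 hv hve g hg hgb) H () hHe K hK hKd w
  refine ⟨S, hS, fun g hinj hg P hP h0 => ?_⟩
  set f : Fin τ ⊕ Fin r → Fin τ ⊕ Fin r × Unit := Sum.map id fun i => (i, ()) with hf
  have h1 := h g hinj hg (fun q => L ((v + g q.1 * p ^ e : ℕ) : A) - L (v : A)) (fun q => ⟨1, one_ne_zero, by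
      have h2 : L ((v + g q.1 * p ^ e : ℕ) : A) - L (v : A) -
          ((1 : K) : A) * (L ((v + g q.1 * p ^ e : ℕ) : A) - L (v : A)) = 0 := by
        rw [OneMemClass.coe_one, one_mul, sub_self]
      rw [h2]
      exact Submodule.zero_mem _⟩)
    (MvPolynomial.rename f P) ((MvPolynomial.totalDegree_rename_le _ _).trans hP) (by
      rw [MvPolynomial.aeval_rename, ← h0]
      congr 1
      congr 1
      funext i
      rcases i with j | i
      · simp [hf]
      · simp [hf])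
  rw [MvPolynomial.aeval_rename] at h1
  apply MvPolynomial.rename_injective (Equiv.prodPUnit (Fin r)).symm (Equiv.prodPUnit (Fin r)).symm.injective
  rw [map_zero, ← h1]
  have h3 : (((MvPolynomial.rename (Equiv.prodPUnit (Fin r)).symm : MvPolynomial (Fin r) A →ₐ[A]
      MvPolynomial (Fin r × Unit) A).restrictScalars K).comp
      (MvPolynomial.aeval (Sum.elim (fun j => MvPolynomial.C (w j)) MvPolynomial.X) :
        MvPolynomial (Fin τ ⊕ Fin r) K →ₐ[K] MvPolynomial (Fin r) A)) =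
      MvPolynomial.aeval ((Sum.elim (fun j => MvPolynomial.C (w j)) MvPolynomial.X : Fin τ ⊕ Fin r × Unit →
        MvPolynomial (Fin r × Unit) A) ∘ f) := by
    refine MvPolynomial.algHom_ext fun i => ?_
    rcases i with j | i
    · simp [hf]
    · simp [hf]
  exact DFunLike.congr_fun h3 P

open Pool.Agent.Y921.SR Pool.Agent.Y921.FE Pool.Agent.Y921.PX Pool.Agent.Y916.Om Pool.Agent.Y921.PW in
/-- the `p`-adic case -/
theorem padic_case (r d m : ℕ) : ∃ E : ℕ, ∀ (p : ℕ) [Fact p.Prime] (A : Type) [NormedField A]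
    [NormedAlgebra ℚ_[p] A] [CharZero A] (L : A → A), Iw p L → ∀ H e v : ℕ, (H + 2) ^ E ≤ p ^ e → ¬ p ∣ v →
    v ≤ p ^ e → ∀ K : IntermediateField ℚ A, FiniteDimensional ℚ K → finrank ℚ K ≤ d →
    ∀ V : Submodule K A, Module.Finite K V → finrank K V ≤ m → ZeroProp V →
    ∃ S : Finset ℕ, S.card ≤ m ∧ ∀ g : Fin r → ℕ, Function.Injective g → (∀ i, 1 ≤ g i ∧ g i ≤ H ∧ g i ∉ S) →
      finrank K (V ⊔ Submodule.span K (Set.range fun i => L (1 + (g i : A) * (p : A) ^ e / (v : A))) :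
          Submodule K A) = finrank K V + r ∧
        ZeroProp (V ⊔ Submodule.span K (Set.range fun i => L (1 + (g i : A) * (p : A) ^ e / (v : A)))) := by
  obtain ⟨E, hE⟩ := padic_norel r d (m + r + 1) m
  refine ⟨E, fun p _ A _ _ _ L hL H e v hHe hv hve K hK hKd V hV hVm hV0 => ?_⟩
  obtain ⟨w, hw⟩ := exists_span V m hVm
  obtain ⟨S, hS, h⟩ := hE p A L hL H e v hHe hv hve K hK hKd w
  refine ⟨S, hS, fun g hinj hg => ?_⟩
  have hv0 : (v : A) ≠ 0 := by
    refine natCast_ne p ?_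
    rintro rfl
    exact hv (dvd_zero p)
  have hl : (fun i => L (1 + (g i : A) * (p : A) ^ e / (v : A))) = fun i => L ((v + g i * p ^ e : ℕ) : A) - L (v : A) := by
    funext i
    have h1 : ((v + g i * p ^ e : ℕ) : A) = (v : A) * (1 + (g i : A) * (p : A) ^ e / (v : A)) := by
      push_cast
      field_simp
    have h2 : ((v + g i * p ^ e : ℕ) : A) ≠ 0 := by
      refine natCast_ne p ?_
      have : v ≠ 0 := by
        rintro rfl
        exact hv (dvd_zero p)
      omega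
    have h3 : (1 + (g i : A) * (p : A) ^ e / (v : A)) ≠ 0 := by
      intro h4
      rw [h1, h4, mul_zero] at h2
      exact h2 rfl
    rw [h1, hL.mul _ _ hv0 h3, add_sub_cancel_left]
  rw [hl]
  have hg2 := extend V hV0 (fun i => L ((v + g i * p ^ e : ℕ) : A) - L (v : A)) fun N hN w0 c hw0 h0 X => by
    rw [Fintype.card_fin] at hN
    have h2 : ∀ i j, ∃ a : Fin m → K, ∑ q, a q • w q = w0 i j := fun i j =>
      (Submodule.mem_span_range_iff_exists_fun K).1 (hw (hw0 i j))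
    choose a ha using h2
    have e0 : w0 = fun i j => ∑ q, a i j q • w q := by
      funext i j
      exact (ha i j).symm
    rw [e0] at h0 ⊢
    apply Pool.Agent.Y921.PX.DWn_aeval2
    refine h g hinj hg (Pool.Agent.Y921.PX.DWn a c) ((Pool.Agent.Y921.PX.DWn_deg a c).trans (by omega)) ?_
    rw [Pool.Agent.Y921.PX.DWn_aeval]
    exact h0
  rwa [Fintype.card_fin] at hg2

/-- **Main result.** -/
theorem result :
    (∀ r d m : ℕ, ∃ E : ℕ, ∀ H t : ℕ, (H + 2) ^ E ≤ t →
      ∀ K : IntermediateField ℚ ℂ, FiniteDimensional ℚ K → finrank ℚ K ≤ d →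
      ∀ V : Submodule K ℂ, Module.Finite K V → finrank K V ≤ m → (finrank K V ≤ 1 ∨ ZeroCoefficients V) →
      ∃ S : Finset ℂ, S.card ≤ m ∧ ∀ β : Fin r → ℂ, Function.Injective β →
        (∀ i, β i ∉ S ∧ β i ≠ 0 ∧ Bounded d H (β i)) → Extends V (fun i => Complex.log (1 + β i / t))) ∧
    (∀ r d m : ℕ, ∃ E : ℕ, ∀ (p : ℕ) [Fact p.Prime] (L : ℂ_[p] → ℂ_[p]), IsIwasawaLog p L →
      ∀ H e v : ℕ, (H + 2) ^ E ≤ p ^ e → ¬ p ∣ v → v ≤ p ^ e →
      ∀ K : IntermediateField ℚ ℂ_[p], FiniteDimensional ℚ K → finrank ℚ K ≤ d →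
      ∀ V : Submodule K ℂ_[p], Module.Finite K V → finrank K V ≤ m → (finrank K V ≤ 1 ∨ ZeroCoefficients V) →
      ∃ S : Finset ℕ, S.card ≤ m ∧ ∀ g : Fin r → ℕ, Function.Injective g →
        (∀ i, 1 ≤ g i ∧ g i ≤ H ∧ g i ∉ S) →
        Extends V (fun i => L (1 + (g i : ℂ_[p]) * (p : ℂ_[p]) ^ e / (v : ℂ_[p])))) := by
  refine ⟨fun r d m => ?_, fun r d m => ?_⟩
  · obtain ⟨E, h⟩ := complex_case r d m
    refine ⟨E, fun H t ht K hK hKd V hV hVm hV0 => ?_⟩
    exact h H t ht K hK hKd V hV hVm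
      (hV0.elim (fun h1 => Pool.Agent.Y921.SR.zeroProp_small V h1) fun h1 => h1)
  · obtain ⟨E, h⟩ := padic_case r d m
    refine ⟨E, fun p _ L hL H e v hHe hv hve K hK hKd V hV hVm hV0 => ?_⟩
    exact h p ℂ_[p] L ⟨hL.1, hL.2.1, hL.2.2⟩ H e v hHe hv hve K hK hKd V hV hVm
      (hV0.elim (fun h1 => Pool.Agent.Y921.SR.zeroProp_small V h1) fun h1 => h1)

end Pool.Agent.Results.MP_1f047c_nt.NearOne
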