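import Pool.Agent.T9h51.OP.Main

/-!
# One-parameter families of matrices of logarithms: a uniform bound for the number of exceptions

We consider the `n × n` matrices `M(t) = W + ∑ log |g_k(t)| B_k`, `t` real, where `W` has entries in a space `V` for which Q1
is known, the `B_k` have rational entries (or entries in a field `K`), and the `g_k` are real polynomials of degree at most
`D`, multiplicatively independent modulo the constants. There is a bound `C(n, r, D)`, independent of all the matrices, of the
space and of the polynomials, such that at most `C(n, r, D)` of the matrices `M(t)` are singular, unless there are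
nonzero vectors `w`, `v` over `K` such that `w M(t) v = 0` for all `t`.
-/

set_option autoImplicit false

open Module Polynomial

namespace Pool.Agent.Results.MP_1f047c_nt.OneParameterFamilies

/-- Every singular square matrix, of any size `n ≥ 1`, with entries in the `K`-space `V` has a zero coefficient
`∑ w_i M_ij v_j = 0` with nonzero vectors `w`, `v` over `K` (for `K = ℚ`: the conclusion of Q1). -/
def ZeroCoefficients {K : IntermediateField ℚ ℂ} (V : Submodule K ℂ) : Prop :=
  ∀ n : ℕ, 1 ≤ n → ∀ M : Matrix (Fin n) (Fin n) ℂ, (∀ i j, M i j ∈ V) → M.det = 0 →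
    ∃ w v : Fin n → K, w ≠ 0 ∧ v ≠ 0 ∧ ∑ i, ∑ j, (w i * v j) • M i j = 0

/-- The polynomials `g_k` are multiplicatively independent modulo the constants. -/
def MultIndep {r : ℕ} (g : Fin r → ℝ[X]) : Prop :=
  ∀ (a b : Fin r → ℕ) (γ : ℝ), ∏ k, g k ^ a k = C γ * ∏ k, g k ^ b k → a = b

/-- The matrix `M(t) = W + ∑ log |g_k(t)| B_k`. -/
noncomputable def family {r n : ℕ} {K : IntermediateField ℚ ℂ} (g : Fin r → ℝ[X]) (W : Matrix (Fin n) (Fin n) ℂ)
    (B : Fin r → Matrix (Fin n) (Fin n) K) (t : ℝ) : Matrix (Fin n) (Fin n) ℂ :=
  W + ∑ k, (Real.log |(g k).eval t| : ℂ) • (B k).map (algebraMap K ℂ)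

/-- The real numbers `t` which are not zeros of the polynomials `g_k` and for which `M(t)` is singular. -/
def singular {r n : ℕ} {K : IntermediateField ℚ ℂ} (g : Fin r → ℝ[X]) (W : Matrix (Fin n) (Fin n) ℂ)
    (B : Fin r → Matrix (Fin n) (Fin n) K) : Set ℝ :=
  {t | (∀ k, (g k).eval t ≠ 0) ∧ (family g W B t).det = 0}

/-- **(1)** For all `n`, `r`, `D` there is `C` such that for all multiplicatively independent (modulo constants) real
polynomials `g_1, ..., g_r` of degree at most `D`, all fields `K` of complex numbers, all finite dimensional `K`-spaces `V` of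
complex numbers for which all singular matrices over `V` have a zero coefficient over `K` (or with `dim V ≤ 1`), all
`n × n` matrices `W` over `V` and all `n × n` matrices `B_1, ..., B_r` over `K`: either there are nonzero vectors `w`, `v`
over `K` with `w M(t) v = 0` for ALL real `t`, or there are at most `C` real numbers `t` outside the zeros of the `g_k` for
which the matrix `M(t) = W + ∑ log |g_k(t)| B_k` is singular. **(2)** The polynomials `t + θ_k` with different real `θ_k` are
multiplicatively independent modulo constants. -/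
theorem result (n r D : ℕ) :
    (∃ C : ℕ, ∀ g : Fin r → ℝ[X], (∀ k, (g k).natDegree ≤ D) → MultIndep g →
      ∀ (K : IntermediateField ℚ ℂ) (V : Submodule K ℂ), Module.Finite K V → (finrank K V ≤ 1 ∨ ZeroCoefficients V) →
      ∀ W : Matrix (Fin n) (Fin n) ℂ, (∀ i j, W i j ∈ V) → ∀ B : Fin r → Matrix (Fin n) (Fin n) K,
      (∃ w v : Fin n → K, w ≠ 0 ∧ v ≠ 0 ∧ ∀ t : ℝ, ∑ i, ∑ j, (w i * v j) • family g W B t i j = 0) ∨
      ((singular g W B).Finite ∧ (singular g W B).ncard ≤ C)) ∧
    ∀ θ : Fin r → ℝ, Function.Injective θ → MultIndep fun k => X + Polynomial.C (θ k) := by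
  refine ⟨?_, Pool.Agent.T9h51.OP.multIndep_linear⟩
  obtain ⟨C, hC⟩ := Pool.Agent.T9h51.OP.main n r D
  refine ⟨C, fun g hD hg K V hV hV0 W hW B => ?_⟩
  rcases hC g hD hg K V (hV0.elim (fun h1 => Pool.Agent.Y921.SR.zeroProp_small V h1) fun h1 => h1) W hW B with h | h
  · left
    obtain ⟨w, v, hw, hv, h1, h2⟩ := h
    refine ⟨w, v, hw, hv, fun t => ?_⟩
    have h3 : ∀ i j, (w i * v j) • family g W B t i j =
        (w i * v j) • W i j + ∑ k, (Real.log |(g k).eval t| : ℂ) * ((w i * B k i j * v j : K) : ℂ) := by
      intro i j
      unfold family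
      simp only [Matrix.add_apply, Matrix.sum_apply, Matrix.smul_apply, Matrix.map_apply, smul_add, smul_eq_mul]
      congr 1
      rw [Finset.smul_sum]
      refine Finset.sum_congr rfl fun k _ => ?_
      rw [Algebra.smul_def]
      simp only [IntermediateField.algebraMap_apply]
      push_cast
      ring
    simp only [h3, Finset.sum_add_distrib, h1, zero_add]
    rw [← Finset.sum_congr rfl fun i _ => Finset.sum_comm]
    rw [Finset.sum_comm]
    refine Finset.sum_eq_zero fun k _ => ?_
    simp only [← Finset.mul_sum]
    have h4 : ∑ i, ∑ j, ((w i * B k i j * v j : K) : ℂ) = 0 := by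
      have h5 := congrArg (fun z : K => (z : ℂ)) (h2 k)
      push_cast at h5 ⊢
      exact h5
    rw [h4, mul_zero]
  · right
    have hfin : (singular g W B).Finite := by
      by_contra hinf
      obtain ⟨T, hT, hTc⟩ := Set.Infinite.exists_subset_card_eq hinf (C + 1)
      have h1 := h T fun t ht => hT ht
      omega
    refine ⟨hfin, ?_⟩
    rw [Set.ncard_eq_toFinset_card _ hfin]
    exact h _ fun t ht => by
      rw [Set.Finite.mem_toFinset] at ht
      exact ht

end Pool.Agent.Results.MP_1f047c_nt.OneParameterFamilies
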